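import Pool.Agent.H15.HLU.Targets

/-!
# Homogeneous latin squares, uniform version: orders of even type (row TYE)
-/

set_option autoImplicit false

namespace Pool.Agent.H13.HLU

open Pool.Agent.H51.Homog Pool.Agent.H22.HSQ Pool.Agent.H15.HLS Pool.Agent.H15.HLU

/-- the inflation, for one quadruple -/
theorem one (hIN2 : T_IN2) (hB2D : T_B2D) (c r a mi : ℕ) (hc : c = 1 ∨ c = 4) (hr : r ≤ 240)
    (ha : 1 ≤ a) (hm : 1201 ≤ mi) : ∃ A B : ℕ, ∀ y q : ℕ, 0 < y →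
      Nat.Coprime y 6 → 1 < q → Nat.Coprime q 6 →
      IsOrder (c * r + c * y) (2 ^ a * (mi * y ^ A * q ^ B)) := by
  obtain ⟨b, rfl⟩ : ∃ b, a = b + 1 := ⟨a - 1, by omega⟩
  have h2 : 1 ≤ 2 ^ b := Nat.one_le_two_pow
  have h3 : c * r + c ≤ 964 := by
    rcases hc with rfl | rfl <;> omega
  have h4 : c * r + c ≤ 2 ^ b * mi := by
    calc c * r + c ≤ 964 := h3
      _ ≤ 1 * mi := by omega
      _ ≤ 2 ^ b * mi := Nat.mul_le_mul_right _ h2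
  obtain ⟨A, B, hAB⟩ := hIN2 _ _ _ (hB2D (c * r) c (2 ^ b * mi) (by positivity) h4)
  refine ⟨A, B, fun y q h1 h2 h3 h4 => ?_⟩
  have h5 := hAB y q h1 h2 h3 h4
  have h6 : 2 * (2 ^ b * mi) * y ^ A * q ^ B = 2 ^ (b + 1) * (mi * y ^ A * q ^ B) := by
    rw [pow_succ]
    ring
  rwa [h6] at h5

theorem pf_TYE (hIN2 : T_IN2) (hB2D : T_B2D) : T_TYE := by
  have hm : ∀ i : Fin 3, 1201 ≤ ![1201, 1321, 1801] i ∧ ![1201, 1321, 1801] i ≤ 1801 := by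
    decide
  have hq : ∀ i : Fin 3, 1 < ![251, 257, 263] i ∧ ![251, 257, 263] i ≤ 263 ∧
      Nat.Coprime (![251, 257, 263] i) 6 := by
    decide
  have hex : ∀ x : Fin 5 × Fin 241 × Fin 4 × Fin 3, ∃ D : ℕ, ((x.1 : ℕ) = 1 ∨ (x.1 : ℕ) = 4) →
      1 ≤ (x.2.2.1 : ℕ) → ∃ A B : ℕ, A ≤ D ∧ B ≤ D ∧ ∀ y q : ℕ, 0 < y →
      Nat.Coprime y 6 → 1 < q → Nat.Coprime q 6 →
      IsOrder ((x.1 : ℕ) * (x.2.1 : ℕ) + (x.1 : ℕ) * y)
        (2 ^ (x.2.2.1 : ℕ) * (![1201, 1321, 1801] x.2.2.2 * y ^ A * q ^ B)) := by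
    intro x
    by_cases h1 : ((x.1 : ℕ) = 1 ∨ (x.1 : ℕ) = 4) ∧ 1 ≤ (x.2.2.1 : ℕ)
    · obtain ⟨A, B, h2⟩ := one hIN2 hB2D x.1 x.2.1 x.2.2.1 (![1201, 1321, 1801] x.2.2.2) h1.1
        (Nat.lt_succ_iff.1 x.2.1.2) h1.2 (hm _).1
      exact ⟨max A B, fun _ _ => ⟨A, B, le_max_left _ _, le_max_right _ _, h2⟩⟩
    · exact ⟨0, fun h2 h3 => absurd ⟨h2, h3⟩ h1⟩
  choose D₀ hD₀ using hex
  obtain ⟨D, hD⟩ := Finite.exists_le D₀
  refine ⟨8 * 1801 * 263 ^ D + D, ?_⟩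
  intro c J hc hJ y hy hcop i a ha1 ha3
  have hc5 : c < 5 := by omega
  have hr : J - y i < 241 := by have := (hy i).2; omega
  obtain ⟨A, B, hA, hB, hAB⟩ := hD₀ (⟨c, hc5⟩, ⟨J - y i, hr⟩, ⟨a, by omega⟩, i) hc ha1
  have hA' := hA.trans (hD _)
  have hB' := hB.trans (hD _)
  have hy0 : 0 < y i := by have := (hy i).2; omega
  have hy6 : Nat.Coprime (y i) 6 :=
    Nat.Coprime.coprime_dvd_right (Dvd.intro (5 * QQ) (by ring)) (hcop i)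
  have h1 := hAB (y i) (![251, 257, 263] i) hy0 hy6 (hq i).1 (hq i).2.2
  refine ⟨![1201, 1321, 1801] i * y i ^ A * ![251, 257, 263] i ^ B, A + B + 1, ?_, ?_, ?_⟩
  · have h2 : c * (J - y i) + c * y i = c * J := by
      rw [← Nat.mul_add, Nat.sub_add_cancel (hy i).1]
    rw [← h2]
    exact h1
  · have e1 : 2 ^ a ≤ 8 := by
      calc 2 ^ a ≤ 2 ^ 3 := Nat.pow_le_pow_right (by norm_num) ha3
        _ = 8 := by norm_num
    have e2 : y i ^ A ≤ (J + 1) ^ D := by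
      calc y i ^ A ≤ (J + 1) ^ A := Nat.pow_le_pow_left (by have := (hy i).1; omega) _
        _ ≤ (J + 1) ^ D := Nat.pow_le_pow_right (by omega) hA'
    have e3 : ![251, 257, 263] i ^ B ≤ 263 ^ D := by
      calc ![251, 257, 263] i ^ B ≤ 263 ^ B := Nat.pow_le_pow_left (hq i).2.1 _
        _ ≤ 263 ^ D := Nat.pow_le_pow_right (by norm_num) hB'
    have e4 : (J + 1) ^ D ≤ (J + 1) ^ (8 * 1801 * 263 ^ D + D) :=
      Nat.pow_le_pow_right (by omega) (Nat.le_add_left _ _)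
    calc 2 ^ a * (![1201, 1321, 1801] i * y i ^ A * ![251, 257, 263] i ^ B)
        ≤ 8 * (1801 * (J + 1) ^ D * 263 ^ D) := by
          gcongr
          exact (hm i).2
      _ = 8 * 1801 * 263 ^ D * (J + 1) ^ D := by ring
      _ ≤ (8 * 1801 * 263 ^ D + D) * (J + 1) ^ (8 * 1801 * 263 ^ D + D) :=
          Nat.mul_le_mul (Nat.le_add_right _ _) e4
  · rw [mul_pow, mul_pow]
    have d1 : ![1201, 1321, 1801] i ∣ ![1201, 1321, 1801] i ^ (A + B + 1) :=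
      dvd_pow_self _ (by omega)
    have d2 : y i ^ A ∣ y i ^ (A + B + 1) := pow_dvd_pow _ (by omega)
    have d3 : ![251, 257, 263] i ^ B ∣ ![251, 257, 263] i ^ (A + B + 1) :=
      pow_dvd_pow _ (by omega)
    have d4 := Nat.mul_dvd_mul (Nat.mul_dvd_mul d1 d2) d3
    refine d4.trans (dvd_of_eq ?_)
    ring

end Pool.Agent.H13.HLU
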